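import Mathlib

set_option autoImplicit false

namespace Pool.Agent.H36Z.LowOrd

open Nat.Partrec (Code)
open Nat.Partrec.Code Filter

variable (Ext : ℕ → ℕ → Prop) [DecidableRel Ext]

/-- the witness check -/
def chk (e c w : ℕ) : Bool :=
  decide (Ext c w.unpair.1) &&
    (evaln w.unpair.2 (Denumerable.ofNat Code e.unpair.1) (Nat.pair w.unpair.1 e.unpair.2)).isSome

def idx (s e c : ℕ) : ℕ := (List.range s).findIdx (chk Ext e c)

def stepS (s e c : ℕ) : ℕ := if idx Ext s e c < s then (idx Ext s e c).unpair.1 else c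

def sigS (c0 s e : ℕ) : ℕ := Nat.rec c0 (fun y IH => stepS Ext s y IH) e

open Classical in
noncomputable def stepT (e c : ℕ) : ℕ :=
  if h : ∃ w, chk Ext e c w = true then (Nat.find h).unpair.1 else c

noncomputable def sigT (c0 e : ℕ) : ℕ := Nat.rec c0 (fun y IH => stepT Ext y IH) e

variable {Ext}

theorem idx_lt_iff (s e c : ℕ) : idx Ext s e c < s ↔ ∃ w < s, chk Ext e c w = true := by
  unfold idx
  have h := List.findIdx_lt_length (p := chk Ext e c) (xs := List.range s)
  rw [List.length_range] at h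
  rw [h]
  simp

theorem idx_eq (s e c : ℕ) (h : ∃ w, chk Ext e c w = true) (hs : Nat.find h < s) :
    idx Ext s e c = Nat.find h := by
  unfold idx
  rw [List.findIdx_eq (by simpa using hs)]
  constructor
  · simpa using Nat.find_spec h
  · intro j hj
    simpa using Nat.find_min h hj

theorem step_conv (e c : ℕ) : ∀ᶠ s in atTop, stepS Ext s e c = stepT Ext e c ∧
    (idx Ext s e c < s ↔ ∃ w, chk Ext e c w = true) := by
  by_cases h : ∃ w, chk Ext e c w = true
  · filter_upwards [eventually_gt_atTop (Nat.find h)] with s hs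
    have h1 := idx_eq s e c h hs
    refine ⟨?_, ?_⟩
    · unfold stepS stepT
      rw [h1, if_pos hs, dif_pos h]
    · rw [h1]; exact ⟨fun _ => h, fun _ => hs⟩
  · refine Eventually.of_forall fun s => ?_
    have h1 : ¬ idx Ext s e c < s := by
      rw [idx_lt_iff]
      rintro ⟨w, -, hw⟩
      exact h ⟨w, hw⟩
    refine ⟨?_, ?_⟩
    · unfold stepS stepT
      rw [if_neg h1, dif_neg h]
    · exact ⟨fun h2 => absurd h2 h1, fun h2 => absurd h2 h⟩

theorem sig_conv (c0 e : ℕ) : ∀ᶠ s in atTop, sigS Ext c0 s e = sigT Ext c0 e := by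
  induction e with
  | zero => exact Eventually.of_forall fun s => rfl
  | succ e ih =>
    filter_upwards [ih, step_conv (Ext := Ext) e (sigT Ext c0 e)] with s h1 h2
    show stepS Ext s e (sigS Ext c0 s e) = stepT Ext e (sigT Ext c0 e)
    rw [h1, h2.1]

theorem stepT_spec (e c : ℕ) (h : ∃ w, chk Ext e c w = true) :
    ∃ w, chk Ext e c w = true ∧ stepT Ext e c = w.unpair.1 := by
  refine ⟨Nat.find h, Nat.find_spec h, ?_⟩
  unfold stepT
  rw [dif_pos h]

theorem stepT_neg (e c : ℕ) (h : ¬ ∃ w, chk Ext e c w = true) : stepT Ext e c = c := by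
  unfold stepT
  rw [dif_neg h]

theorem primrec_chk (hE : PrimrecRel Ext) :
    Primrec (fun z : (ℕ × ℕ) × ℕ => chk Ext z.1.1 z.1.2 z.2) := by
  unfold chk
  have hw1 : Primrec (fun z : (ℕ × ℕ) × ℕ => z.2.unpair.1) :=
    Primrec.fst.comp (Primrec.unpair.comp Primrec.snd)
  have hw2 : Primrec (fun z : (ℕ × ℕ) × ℕ => z.2.unpair.2) :=
    Primrec.snd.comp (Primrec.unpair.comp Primrec.snd)
  have he1 : Primrec (fun z : (ℕ × ℕ) × ℕ => z.1.1.unpair.1) :=
    Primrec.fst.comp (Primrec.unpair.comp (Primrec.fst.comp Primrec.fst))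
  have he2 : Primrec (fun z : (ℕ × ℕ) × ℕ => z.1.1.unpair.2) :=
    Primrec.snd.comp (Primrec.unpair.comp (Primrec.fst.comp Primrec.fst))
  refine Primrec.and.comp ?_ ?_
  · exact (hE.comp (Primrec.snd.comp Primrec.fst) hw1).decide
  · refine Primrec.option_isSome.comp ?_
    exact primrec_evaln.comp ((hw2.pair ((Primrec.ofNat Code).comp he1)).pair
      (Primrec₂.natPair.comp hw1 he2))

theorem primrec_idx (hE : PrimrecRel Ext) :
    Primrec (fun z : ℕ × (ℕ × ℕ) => idx Ext z.1 z.2.1 z.2.2) := by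
  unfold idx
  refine Primrec.list_findIdx (Primrec.list_range.comp Primrec.fst) ?_
  exact (primrec_chk hE).comp ((Primrec.snd.comp Primrec.fst).pair Primrec.snd)

theorem primrec_stepS (hE : PrimrecRel Ext) :
    Primrec (fun z : ℕ × (ℕ × ℕ) => stepS Ext z.1 z.2.1 z.2.2) := by
  unfold stepS
  refine Primrec.ite (Primrec.nat_lt.comp (primrec_idx hE) Primrec.fst)
    (Primrec.fst.comp (Primrec.unpair.comp (primrec_idx hE))) (Primrec.snd.comp Primrec.snd)

theorem primrec_sigS (hE : PrimrecRel Ext) (c0 : ℕ) :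
    Primrec (fun z : ℕ × ℕ => sigS Ext c0 z.1 z.2) := by
  unfold sigS
  refine Primrec.nat_rec' (f := fun z : ℕ × ℕ => z.2) (g := fun _ => c0)
    (h := fun z p => stepS Ext z.1 p.1 p.2) Primrec.snd (Primrec.const c0) ?_
  exact (primrec_stepS hE).comp ((Primrec.fst.comp Primrec.fst).pair Primrec.snd)

theorem generic (hE : PrimrecRel Ext) (c0 : ℕ) (h0 : Ext c0 c0)
    (hr : ∀ c c', Ext c c' → Ext c' c') :
    ∃ σ : ℕ → ℕ, (∀ e, Ext (σ e) (σ (e + 1))) ∧
      ∀ W : ℕ × ℕ → Prop, REPred W → ∃ (g : ℕ → ℕ → Bool) (i : ℕ → ℕ), Computable₂ g ∧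
        ∀ n, (∀ᶠ s in atTop, (g n s = true ↔ ∃ c, Ext (σ (i n)) c ∧ W (c, n))) ∧
          ((∃ c, Ext (σ (i n)) c ∧ W (c, n)) → W (σ (i n + 1), n)) := by
  have hstep : ∀ e c, Ext c c → Ext c (stepT Ext e c) := by
    intro e c hc
    by_cases h : ∃ w, chk Ext e c w = true
    · obtain ⟨w, this, hw⟩ := stepT_spec e c h
      unfold chk at this
      simp only [Bool.and_eq_true, decide_eq_true_eq] at this
      rw [hw]
      exact this.1
    · rw [stepT_neg e c h]; exact hc
  have hrefl : ∀ e, Ext (sigT Ext c0 e) (sigT Ext c0 e) := by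
    intro e
    induction e with
    | zero => exact h0
    | succ e ih => exact hr _ _ (hstep e _ ih)
  refine ⟨sigT Ext c0, fun e => hstep e _ (hrefl e), fun W hW => ?_⟩
  have hW' : Partrec (fun x : ℕ => (Part.assert (W x.unpair) fun _ => Part.some ()).map
      (fun _ => (0 : ℕ))) := by
    have h1 : Partrec (fun x : ℕ => Part.assert (W x.unpair) fun _ => Part.some ()) :=
      Partrec.comp hW Computable.unpair
    exact h1.map (Computable.const 0).to₂
  obtain ⟨code, hcode⟩ := exists_code.1 (Partrec.nat_iff.1 hW')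
  have hdom : ∀ c n, W (c, n) ↔ ∃ t, (evaln t code (Nat.pair c n)).isSome = true := by
    intro c n
    constructor
    · intro h
      have : (0 : ℕ) ∈ eval code (Nat.pair c n) := by
        rw [hcode]; simp [h]
      obtain ⟨t, ht⟩ := evaln_complete.1 this
      exact ⟨t, by rw [Option.mem_def] at ht; rw [ht]; rfl⟩
    · rintro ⟨t, ht⟩
      obtain ⟨x, hx⟩ := Option.isSome_iff_exists.1 ht
      have : x ∈ eval code (Nat.pair c n) := evaln_complete.2 ⟨t, hx⟩
      rw [hcode] at this
      simp at this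
      exact this.1
  have hchk : ∀ n c w, chk Ext (Nat.pair (Encodable.encode code) n) c w = true ↔
      Ext c w.unpair.1 ∧ (evaln w.unpair.2 code (Nat.pair w.unpair.1 n)).isSome = true := by
    intro n c w
    unfold chk
    simp
  have hex : ∀ n c, (∃ w, chk Ext (Nat.pair (Encodable.encode code) n) c w = true) ↔
      ∃ c', Ext c c' ∧ W (c', n) := by
    intro n c
    constructor
    · rintro ⟨w, hw⟩
      rw [hchk] at hw
      exact ⟨_, hw.1, (hdom _ _).2 ⟨_, hw.2⟩⟩
    · rintro ⟨c', h1, h2⟩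
      obtain ⟨t, ht⟩ := (hdom _ _).1 h2
      exact ⟨Nat.pair c' t, by rw [hchk]; simpa using ⟨h1, ht⟩⟩
  refine ⟨fun n s => decide (idx Ext s (Nat.pair (Encodable.encode code) n)
      (sigS Ext c0 s (Nat.pair (Encodable.encode code) n)) < s),
    fun n => Nat.pair (Encodable.encode code) n, ?_, fun n => ⟨?_, ?_⟩⟩
  · have he : Primrec (fun z : ℕ × ℕ => Nat.pair (Encodable.encode code) z.1) :=
      Primrec₂.natPair.comp (Primrec.const _) Primrec.fst
    have h1 : Primrec (fun z : ℕ × ℕ => idx Ext z.2 (Nat.pair (Encodable.encode code) z.1)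
        (sigS Ext c0 z.2 (Nat.pair (Encodable.encode code) z.1))) :=
      (primrec_idx hE).comp (Primrec.snd.pair (he.pair
        ((primrec_sigS hE c0).comp (Primrec.snd.pair he))))
    exact ((Primrec.nat_lt.comp h1 Primrec.snd).decide).to_comp
  · filter_upwards [sig_conv (Ext := Ext) c0 (Nat.pair (Encodable.encode code) n),
      step_conv (Ext := Ext) (Nat.pair (Encodable.encode code) n)
        (sigT Ext c0 (Nat.pair (Encodable.encode code) n))] with s h1 h2
    rw [h1, decide_eq_true_iff, h2.2, hex]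
  · intro h
    have h1 := (hex _ _).2 h
    obtain ⟨w, h2, hw⟩ := stepT_spec _ _ h1
    show W (stepT Ext (Nat.pair (Encodable.encode code) n)
      (sigT Ext c0 (Nat.pair (Encodable.encode code) n)), n)
    rw [hw]
    rw [hchk] at h2
    exact (hdom _ _).2 ⟨_, h2.2⟩

end Pool.Agent.H36Z.LowOrd
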