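import Pool.Agent.H36Z.LowOrd.Generic
import Pool.Agent.Helper760.OracleNF

set_option autoImplicit false

namespace Pool.Agent.H36Z.LowOrd

open Filter

def pos (m : ℕ) : ℕ := if m % 2 = 0 then m / 2 else 0
def neg (m : ℕ) : ℕ := if m % 2 = 0 then 0 else m / 2 + 1
def enc (P N : ℕ) : ℕ := if N ≤ P then 2 * (P - N) else 2 * (N - P - 1) + 1
def toI (m : ℕ) : ℤ := (pos m : ℤ) - neg m

theorem toI_enc (P N : ℕ) : toI (enc P N) = (P : ℤ) - N := by
  unfold toI enc pos neg
  split_ifs <;> omega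

theorem toI_inj {m n : ℕ} (h : toI m = toI n) : m = n := by
  unfold toI pos neg at h
  split_ifs at h <;> omega

def iota : ℕ ≃ ℤ where
  toFun := toI
  invFun z := enc z.toNat (-z).toNat
  left_inv m := toI_inj (by rw [toI_enc]; omega)
  right_inv z := by rw [toI_enc]; omega

theorem primrec_pos : Primrec pos := by
  unfold pos
  exact Primrec.ite (Primrec.eq.comp (Primrec.nat_mod.comp Primrec.id (Primrec.const 2))
    (Primrec.const 0)) (Primrec.nat_div.comp Primrec.id (Primrec.const 2)) (Primrec.const 0)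

theorem primrec_neg : Primrec neg := by
  unfold neg
  exact Primrec.ite (Primrec.eq.comp (Primrec.nat_mod.comp Primrec.id (Primrec.const 2))
    (Primrec.const 0)) (Primrec.const 0)
    (Primrec.succ.comp (Primrec.nat_div.comp Primrec.id (Primrec.const 2)))

theorem primrec_enc : Primrec₂ enc := by
  unfold enc
  refine Primrec.ite (Primrec.nat_le.comp Primrec.snd Primrec.fst)
    (Primrec.nat_mul.comp (Primrec.const 2) (Primrec.nat_sub.comp Primrec.fst Primrec.snd))
    (Primrec.succ.comp (Primrec.nat_mul.comp (Primrec.const 2)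
      (Primrec.nat_sub.comp (Primrec.nat_sub.comp Primrec.snd Primrec.fst) (Primrec.const 1))))

/-- The group `ℤ × ℤ`, written multiplicatively. -/
def GG : Type := Multiplicative (ℤ × ℤ)

instance : CommGroup GG := inferInstanceAs (CommGroup (Multiplicative (ℤ × ℤ)))

def mk (a b : ℤ) : GG := Multiplicative.ofAdd (a, b)
def c1 (g : GG) : ℤ := (Multiplicative.toAdd (α := ℤ × ℤ) g).1
def c2 (g : GG) : ℤ := (Multiplicative.toAdd (α := ℤ × ℤ) g).2

theorem c1_mul (g h : GG) : c1 (g * h) = c1 g + c1 h := rfl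
theorem c2_mul (g h : GG) : c2 (g * h) = c2 g + c2 h := rfl
theorem c1_one : c1 1 = 0 := rfl
theorem c2_one : c2 1 = 0 := rfl
theorem GG_ext {g h : GG} (h1 : c1 g = c1 h) (h2 : c2 g = c2 h) : g = h :=
  Prod.ext h1 h2

def nu : ℕ ≃ GG where
  toFun k := mk (toI k.unpair.1) (toI k.unpair.2)
  invFun g := Nat.pair (iota.symm (c1 g)) (iota.symm (c2 g))
  left_inv k := by
    show Nat.pair (iota.symm (iota k.unpair.1)) (iota.symm (iota k.unpair.2)) = k
    simp
  right_inv g := by
    apply GG_ext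
    · show iota (Nat.unpair (Nat.pair _ _)).1 = _
      simp
    · show iota (Nat.unpair (Nat.pair _ _)).2 = _
      simp

theorem c1_nu (k : ℕ) : c1 (nu k) = toI k.unpair.1 := rfl
theorem c2_nu (k : ℕ) : c2 (nu k) = toI k.unpair.2 := rfl

theorem nu_mul : Computable₂ (fun m n : ℕ => nu.symm (nu m * nu n)) := by
  have h : ∀ m n : ℕ, nu.symm (nu m * nu n) =
      Nat.pair (enc (pos m.unpair.1 + pos n.unpair.1) (neg m.unpair.1 + neg n.unpair.1))
        (enc (pos m.unpair.2 + pos n.unpair.2) (neg m.unpair.2 + neg n.unpair.2)) := by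
    intro m n
    rw [Equiv.symm_apply_eq]
    apply GG_ext
    · rw [c1_mul, c1_nu, c1_nu, c1_nu, Nat.unpair_pair, toI_enc]
      unfold toI; push_cast; ring
    · rw [c2_mul, c2_nu, c2_nu, c2_nu, Nat.unpair_pair, toI_enc]
      unfold toI; push_cast; ring
  simp only [h]
  have a1 : Primrec (fun z : ℕ × ℕ => z.1.unpair.1) :=
    Primrec.fst.comp (Primrec.unpair.comp Primrec.fst)
  have a2 : Primrec (fun z : ℕ × ℕ => z.1.unpair.2) :=
    Primrec.snd.comp (Primrec.unpair.comp Primrec.fst)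
  have b1 : Primrec (fun z : ℕ × ℕ => z.2.unpair.1) :=
    Primrec.fst.comp (Primrec.unpair.comp Primrec.snd)
  have b2 : Primrec (fun z : ℕ × ℕ => z.2.unpair.2) :=
    Primrec.snd.comp (Primrec.unpair.comp Primrec.snd)
  exact (Primrec₂.natPair.comp
    (primrec_enc.comp (Primrec.nat_add.comp (primrec_pos.comp a1) (primrec_pos.comp b1))
      (Primrec.nat_add.comp (primrec_neg.comp a1) (primrec_neg.comp b1)))
    (primrec_enc.comp (Primrec.nat_add.comp (primrec_pos.comp a2) (primrec_pos.comp b2))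
      (Primrec.nat_add.comp (primrec_neg.comp a2) (primrec_neg.comp b2)))).to_comp

def L (c : ℕ) : ℕ := c.unpair.1
def R (c : ℕ) : ℕ := c.unpair.2.unpair.1
def D (c : ℕ) : ℕ := c.unpair.2.unpair.2 + 1
def cond3 (l r d : ℕ) : ℕ := Nat.pair l (Nat.pair r (d - 1))

theorem L_cond3 (l r d : ℕ) : L (cond3 l r d) = l := by simp [L, cond3]
theorem R_cond3 (l r d : ℕ) : R (cond3 l r d) = r := by simp [R, cond3]
theorem D_cond3 (l r d : ℕ) (hd : 0 < d) : D (cond3 l r d) = d := by simp [D, cond3]; omega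
theorem D_pos (c : ℕ) : 0 < D c := Nat.succ_pos _

theorem primrec_L : Primrec L := Primrec.fst.comp Primrec.unpair
theorem primrec_R : Primrec R :=
  Primrec.fst.comp (Primrec.unpair.comp (Primrec.snd.comp Primrec.unpair))
theorem primrec_D : Primrec D :=
  Primrec.succ.comp (Primrec.snd.comp (Primrec.unpair.comp (Primrec.snd.comp Primrec.unpair)))

def Ext (c c' : ℕ) : Prop := L c * D c' ≤ L c' * D c ∧ R c' * D c ≤ R c * D c' ∧ L c' < R c'

instance : DecidableRel Ext := fun c c' => by unfold Ext; infer_instance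

theorem primrec_Ext : PrimrecRel Ext := by
  unfold Ext
  refine PrimrecPred.and ?_ (PrimrecPred.and ?_ ?_)
  · exact Primrec.nat_le.comp
      (Primrec.nat_mul.comp (primrec_L.comp Primrec.fst) (primrec_D.comp Primrec.snd))
      (Primrec.nat_mul.comp (primrec_L.comp Primrec.snd) (primrec_D.comp Primrec.fst))
  · exact Primrec.nat_le.comp
      (Primrec.nat_mul.comp (primrec_R.comp Primrec.snd) (primrec_D.comp Primrec.fst))
      (Primrec.nat_mul.comp (primrec_R.comp Primrec.fst) (primrec_D.comp Primrec.snd))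
  · exact Primrec.nat_lt.comp (primrec_L.comp Primrec.snd) (primrec_R.comp Primrec.snd)

noncomputable def lo (c : ℕ) : ℝ := (L c : ℝ) / D c
noncomputable def hi (c : ℕ) : ℝ := (R c : ℝ) / D c

theorem DR_pos (c : ℕ) : (0 : ℝ) < D c := by exact_mod_cast D_pos c

theorem Ext_iff (c c' : ℕ) : Ext c c' ↔ lo c ≤ lo c' ∧ hi c' ≤ hi c ∧ lo c' < hi c' := by
  unfold Ext lo hi
  rw [div_le_div_iff₀ (DR_pos c) (DR_pos c'), div_le_div_iff₀ (DR_pos c') (DR_pos c),
    div_lt_div_iff_of_pos_right (DR_pos c')]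
  norm_cast

/-- the condition `c` forces `X + Y t < X' + Y' t` -/
def ltc (c X Y X' Y' : ℕ) : Prop :=
  X * D c + Y * L c < X' * D c + Y' * L c ∧ X * D c + Y * R c < X' * D c + Y' * R c

instance (c X Y X' Y' : ℕ) : Decidable (ltc c X Y X' Y') := by unfold ltc; infer_instance

theorem ltc_iff (c X Y X' Y' : ℕ) : ltc c X Y X' Y' ↔
    (X : ℝ) + Y * lo c < X' + Y' * lo c ∧ (X : ℝ) + Y * hi c < X' + Y' * hi c := by
  have hD := DR_pos c
  have key : ∀ T : ℕ, (X * D c + Y * T < X' * D c + Y' * T) ↔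
      (X : ℝ) + Y * (T / D c) < X' + Y' * (T / D c) := by
    intro T
    have e1 : (X : ℝ) + Y * (T / D c) = (X * D c + Y * T) / D c := by field_simp
    have e2 : (X' : ℝ) + Y' * (T / D c) = (X' * D c + Y' * T) / D c := by field_simp
    rw [e1, e2, div_lt_div_iff_of_pos_right hD]
    norm_cast
  unfold ltc lo hi
  rw [key, key]

theorem ltc_mem {c X Y X' Y' : ℕ} (h : ltc c X Y X' Y') {t : ℝ} (h1 : lo c ≤ t) (h2 : t ≤ hi c) :
    (X : ℝ) + Y * t < X' + Y' * t := by
  rw [ltc_iff] at h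
  obtain ⟨ha, hb⟩ := h
  rcases le_total (Y : ℝ) Y' with hY | hY
  · nlinarith
  · nlinarith

theorem ltc_ext {c c' X Y X' Y' : ℕ} (h : ltc c X Y X' Y') (he : Ext c c') : ltc c' X Y X' Y' := by
  rw [Ext_iff] at he
  rw [ltc_iff]
  exact ⟨ltc_mem h he.1 (by linarith [he.2.1, he.2.2]), ltc_mem h (by linarith [he.1, he.2.2]) he.2.1⟩

theorem primrec_ltc {α : Type} [Primcodable α] {c X Y X' Y' : α → ℕ} (hc : Primrec c)
    (hX : Primrec X) (hY : Primrec Y) (hX' : Primrec X') (hY' : Primrec Y') :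
    PrimrecPred (fun a => ltc (c a) (X a) (Y a) (X' a) (Y' a)) := by
  unfold ltc
  refine PrimrecPred.and ?_ ?_
  · exact Primrec.nat_lt.comp
      (Primrec.nat_add.comp (Primrec.nat_mul.comp hX (primrec_D.comp hc))
        (Primrec.nat_mul.comp hY (primrec_L.comp hc)))
      (Primrec.nat_add.comp (Primrec.nat_mul.comp hX' (primrec_D.comp hc))
        (Primrec.nat_mul.comp hY' (primrec_L.comp hc)))
  · exact Primrec.nat_lt.comp
      (Primrec.nat_add.comp (Primrec.nat_mul.comp hX (primrec_D.comp hc))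
        (Primrec.nat_mul.comp hY (primrec_R.comp hc)))
      (Primrec.nat_add.comp (Primrec.nat_mul.comp hX' (primrec_D.comp hc))
        (Primrec.nat_mul.comp hY' (primrec_R.comp hc)))

def XX (m n : ℕ) : ℕ := pos m.unpair.1 + neg n.unpair.1
def YY (m n : ℕ) : ℕ := pos m.unpair.2 + neg n.unpair.2

theorem primrec_XX : Primrec₂ XX :=
  Primrec.nat_add.comp (primrec_pos.comp (Primrec.fst.comp (Primrec.unpair.comp Primrec.fst)))
    (primrec_neg.comp (Primrec.fst.comp (Primrec.unpair.comp Primrec.snd)))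

theorem primrec_YY : Primrec₂ YY :=
  Primrec.nat_add.comp (primrec_pos.comp (Primrec.snd.comp (Primrec.unpair.comp Primrec.fst)))
    (primrec_neg.comp (Primrec.snd.comp (Primrec.unpair.comp Primrec.snd)))

def lt2 (c m n : ℕ) : Prop := ltc c (XX m n) (YY m n) (XX n m) (YY n m)

instance (c m n : ℕ) : Decidable (lt2 c m n) := by unfold lt2; infer_instance

theorem primrec_lt2 {α : Type} [Primcodable α] {c m n : α → ℕ} (hc : Primrec c)
    (hm : Primrec m) (hn : Primrec n) : PrimrecPred (fun a => lt2 (c a) (m a) (n a)) :=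
  primrec_ltc hc (primrec_XX.comp hm hn) (primrec_YY.comp hm hn) (primrec_XX.comp hn hm)
    (primrec_YY.comp hn hm)

def val (c k : ℕ) : ℕ :=
  if k.unpair.1 = k.unpair.2 then 1 else if lt2 c k.unpair.1 k.unpair.2 then 1
    else if lt2 c k.unpair.2 k.unpair.1 then 0 else 2

theorem primrec_val : Primrec₂ val := by
  unfold val
  have a1 : Primrec (fun z : ℕ × ℕ => z.2.unpair.1) :=
    Primrec.fst.comp (Primrec.unpair.comp Primrec.snd)
  have a2 : Primrec (fun z : ℕ × ℕ => z.2.unpair.2) :=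
    Primrec.snd.comp (Primrec.unpair.comp Primrec.snd)
  exact Primrec.ite (Primrec.eq.comp a1 a2) (Primrec.const 1)
    (Primrec.ite (primrec_lt2 Primrec.fst a1 a2) (Primrec.const 1)
      (Primrec.ite (primrec_lt2 Primrec.fst a2 a1) (Primrec.const 0) (Primrec.const 2)))

/-- the embedding into the reals -/
noncomputable def phi (α : ℝ) (g : GG) : ℝ := c1 g + c2 g * α

theorem phi_mul (α : ℝ) (g h : GG) : phi α (g * h) = phi α g + phi α h := by
  unfold phi; rw [c1_mul, c2_mul]; push_cast; ring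

theorem phi_pow (α : ℝ) (g : GG) (n : ℕ) : phi α (g ^ n) = n * phi α g := by
  induction n with
  | zero => simp [phi, c1_one, c2_one]
  | succ n ih => rw [pow_succ, phi_mul, ih]; push_cast; ring

theorem lt2_mem {c m n : ℕ} (h : lt2 c m n) {t : ℝ} (h1 : lo c ≤ t) (h2 : t ≤ hi c) :
    phi t (nu m) < phi t (nu n) := by
  have := ltc_mem h h1 h2
  unfold XX YY at this
  unfold phi
  rw [c1_nu, c2_nu, c1_nu, c2_nu]
  unfold toI
  push_cast at this ⊢
  linarith

theorem val_ext {c c' k : ℕ} (h : val c k ≠ 2) (he : Ext c c') : val c' k ≠ 2 := by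
  unfold val at h ⊢
  by_cases h0 : k.unpair.1 = k.unpair.2
  · simp [h0]
  rw [if_neg h0] at h ⊢
  by_cases h1 : lt2 c k.unpair.1 k.unpair.2
  · have h1' : lt2 c' k.unpair.1 k.unpair.2 := ltc_ext h1 he
    rw [if_pos h1']; omega
  rw [if_neg h1] at h
  by_cases h2 : lt2 c k.unpair.2 k.unpair.1
  · split_ifs with h3 h4
    · omega
    · omega
    · exact absurd (ltc_ext h2 he) h4
  · rw [if_neg h2] at h; exact absurd rfl h

open Classical in
theorem val_eq {c k : ℕ} (h : val c k ≠ 2) {t : ℝ} (h1 : lo c ≤ t) (h2 : t ≤ hi c) :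
    val c k = if phi t (nu k.unpair.1) ≤ phi t (nu k.unpair.2) then 1 else 0 := by
  unfold val at h ⊢
  by_cases h0 : k.unpair.1 = k.unpair.2
  · rw [if_pos h0, h0, if_pos le_rfl]
  rw [if_neg h0] at h ⊢
  by_cases h3 : lt2 c k.unpair.1 k.unpair.2
  · rw [if_pos h3, if_pos (lt2_mem h3 h1 h2).le]
  rw [if_neg h3] at h ⊢
  by_cases h4 : lt2 c k.unpair.2 k.unpair.1
  · rw [if_pos h4, if_neg (not_le.2 (lt2_mem h4 h1 h2))]
  · rw [if_neg h4] at h; exact absurd rfl h

theorem thirds (c : ℕ) (hc : Ext c c) :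
    Ext c (cond3 (3 * L c) (2 * L c + R c) (3 * D c)) ∧
    Ext c (cond3 (L c + 2 * R c) (3 * R c) (3 * D c)) := by
  have hD := D_pos c
  have h := hc.2.2
  unfold Ext
  simp only [L_cond3, R_cond3, D_cond3 _ _ (3 * D c) (by omega)]
  refine ⟨⟨?_, ?_, ?_⟩, ?_, ?_, ?_⟩ <;> nlinarith

theorem dense_dec (c X Y X' Y' : ℕ) (hc : Ext c c) (hne : X ≠ X' ∨ Y ≠ Y') :
    ∃ c', Ext c c' ∧ (ltc c' X Y X' Y' ∨ ltc c' X' Y' X Y) := by
  obtain ⟨h1, h2⟩ := thirds c hc
  have hD := D_pos c
  have h := hc.2.2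
  by_contra hcon
  push Not at hcon
  have a1 := hcon _ h1
  have a2 := hcon _ h2
  unfold ltc at a1 a2
  simp only [L_cond3, R_cond3, D_cond3 _ _ (3 * D c) (by omega)] at a1 a2
  zify at a1 a2 h hD hne
  generalize (L c : ℤ) = l at a1 a2 h
  generalize (R c : ℤ) = r at a1 a2 h
  generalize (D c : ℤ) = d at a1 a2 hD
  have e : ∀ T : ℤ, ((X : ℤ) * (3 * d) + Y * T < X' * (3 * d) + Y' * T ↔
      (X - X') * (3 * d) + (Y - Y') * T < 0) ∧ ((X' : ℤ) * (3 * d) + Y' * T < X * (3 * d) + Y * T ↔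
      0 < (X - X') * (3 * d) + (Y - Y') * T) := by
    intro T
    constructor <;> constructor <;> intro hh <;> linarith
  simp only [(e _).1, (e _).2] at a1 a2
  generalize hA : ((X : ℤ) - X') * (3 * d) = A at a1 a2
  generalize hB : ((Y : ℤ) - Y') = B at a1 a2
  have f1 : B * (2 * l + r) = B * (3 * l) + B * (r - l) := by ring
  have f2 : B * (l + 2 * r) = B * (3 * l) + 2 * (B * (r - l)) := by ring
  have f3 : B * (3 * r) = B * (3 * l) + 3 * (B * (r - l)) := by ring
  rw [f1] at a1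
  rw [f2, f3] at a2
  have hs : B * (r - l) = 0 → B = 0 := by
    intro h0
    rcases mul_eq_zero.1 h0 with h0 | h0
    · exact h0
    · omega
  have hA0 : B = 0 → A ≠ 0 := by
    intro hB0 hA0
    rw [← hA] at hA0
    rcases mul_eq_zero.1 hA0 with h0 | h0
    · omega
    · omega
  generalize hS : B * (r - l) = S at a1 a2 hs
  by_cases hS0 : S = 0
  · have hB0 := hs hS0
    have := hA0 hB0
    rw [hB0] at a1
    simp only [zero_mul] at a1
    omega
  · generalize B * (3 * l) = U at a1 a2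
    omega

theorem re_exists {α : Type} [Primcodable α] {p : α → ℕ → Prop} (hp : PrimrecRel p) :
    REPred (fun a => ∃ n, p a n) := by
  classical
  have h1 : Partrec (fun a => Nat.rfind (fun n => (Part.some (decide (p a n)) : Part Bool))) :=
    Partrec.rfind (hp.decide.to_comp.partrec₂)
  refine h1.dom_re.of_eq fun a => ?_
  rw [Nat.rfind_dom]
  simp

theorem main : ∃ α : ℝ, Function.Injective (phi α) ∧
    (∀ g : ℕ → ℕ, (∀ k, (phi α (nu k.unpair.1) ≤ phi α (nu k.unpair.2) → g k = 1) ∧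
        (¬ phi α (nu k.unpair.1) ≤ phi α (nu k.unpair.2) → g k = 0)) →
      ∀ f : ℕ →. ℕ, Nat.RecursiveIn {(g : ℕ →. ℕ)} f →
        ∃ G : ℕ → ℕ → Bool, Computable₂ G ∧ ∀ n, ∀ᶠ s in atTop, (G n s = true ↔ (f n).Dom)) ∧
    ¬ ComputablePred (fun p : ℕ × ℕ => (p.1 : ℝ) ≤ p.2 * α) := by
  classical
  have hr : ∀ c c', Ext c c' → Ext c' c' := fun c c' h => ⟨le_rfl, le_rfl, h.2.2⟩
  obtain ⟨σ, hσ, hgen⟩ := generic primrec_Ext (cond3 0 1 1)
    (by unfold Ext; simp [L_cond3, R_cond3]) hr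
  have htr : ∀ a b c, Ext a b → Ext b c → Ext a c := by
    intro a b c h1 h2
    rw [Ext_iff] at h1 h2 ⊢
    exact ⟨h1.1.trans h2.1, h2.2.1.trans h1.2.1, h2.2.2⟩
  have hself : ∀ e, Ext (σ e) (σ e) := by
    intro e
    have h := (Ext_iff _ _).1 (hσ e)
    rw [Ext_iff]
    exact ⟨le_rfl, le_rfl, by linarith [h.1, h.2.1, h.2.2]⟩
  have hmono : ∀ e e', e ≤ e' → Ext (σ e) (σ e') := by
    intro e e' h
    induction e', h using Nat.le_induction with
    | base => exact hself e
    | succ n _ ih => exact htr _ _ _ ih (hσ n)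
  have hlohi : ∀ e e', lo (σ e) ≤ hi (σ e') := by
    intro e e'
    have h1 := (Ext_iff _ _).1 (hmono e (max e e') (le_max_left _ _))
    have h2 := (Ext_iff _ _).1 (hmono e' (max e e') (le_max_right _ _))
    linarith [h1.1, h1.2.2, h2.2.1]
  have hbdd : BddAbove (Set.range fun e => lo (σ e)) := ⟨hi (σ 0), by
    rintro _ ⟨e, rfl⟩; exact hlohi e 0⟩
  set α : ℝ := ⨆ e, lo (σ e) with hα
  have hlo : ∀ e, lo (σ e) ≤ α := fun e => le_ciSup hbdd e
  have hhi : ∀ e, α ≤ hi (σ e) := fun e => ciSup_le fun e' => hlohi e' e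
  have hdec : ∀ k, ∃ e, val (σ e) k ≠ 2 := by
    intro k
    have hW : REPred (fun z : ℕ × ℕ => val z.1 z.2 ≠ 2) :=
      ((Primrec.eq.comp primrec_val (Primrec.const 2)).not).computablePred.to_re
    obtain ⟨G0, i, hG0, hi'⟩ := hgen _ hW
    refine ⟨i k + 1, (hi' k).2 ?_⟩
    by_cases h0 : k.unpair.1 = k.unpair.2
    · exact ⟨_, hself _, by unfold val; simp [h0]⟩
    have hne : XX k.unpair.1 k.unpair.2 ≠ XX k.unpair.2 k.unpair.1 ∨
        YY k.unpair.1 k.unpair.2 ≠ YY k.unpair.2 k.unpair.1 := by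
      by_contra hcon
      push Not at hcon
      apply h0
      apply nu.injective
      unfold XX YY at hcon
      apply GG_ext
      · rw [c1_nu, c1_nu]; unfold toI; omega
      · rw [c2_nu, c2_nu]; unfold toI; omega
    obtain ⟨c', h1, h2⟩ := dense_dec (σ (i k)) _ _ _ _ (hself _) hne
    refine ⟨c', h1, ?_⟩
    show val c' k ≠ 2
    unfold val
    rw [if_neg h0]
    split_ifs with h3 h4
    · omega
    · omega
    · exact absurd h2 (not_or.2 ⟨h3, h4⟩)
  have hinj : Function.Injective (phi α) := by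
    intro a b hab
    obtain ⟨m, rfl⟩ := nu.surjective a
    obtain ⟨n, rfl⟩ := nu.surjective b
    obtain ⟨e, he⟩ := hdec (Nat.pair m n)
    unfold val at he
    simp only [Nat.unpair_pair] at he
    by_cases h0 : m = n
    · rw [h0]
    rw [if_neg h0] at he
    exfalso
    by_cases h1 : lt2 (σ e) m n
    · exact absurd hab (lt2_mem h1 (hlo e) (hhi e)).ne
    rw [if_neg h1] at he
    by_cases h2 : lt2 (σ e) n m
    · exact absurd hab (lt2_mem h2 (hlo e) (hhi e)).ne'
    rw [if_neg h2] at he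
    exact he rfl
  refine ⟨α, hinj, ?_, ?_⟩
  · intro g hg f hf
    obtain ⟨F, hF, -, hFf⟩ := Pool.Agent.Helper760.OracleNF.normal_form g f hf
    have hval : ∀ e k, val (σ e) k ≠ 2 → val (σ e) k = g k := by
      intro e k h
      rw [val_eq h (hlo e) (hhi e)]
      split_ifs with h1
      · exact ((hg k).1 h1).symm
      · exact ((hg k).2 h1).symm
    have hW : REPred (fun z : ℕ × ℕ => ∃ K, (∀ i < K, val z.1 i ≠ 2) ∧
        (F ((List.range K).map (val z.1)) z.2).isSome = true) := by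
      refine re_exists (PrimrecPred.and ?_ ?_)
      · have h1 : PrimrecRel (fun i c : ℕ => val c i ≠ 2) :=
          (Primrec.eq.comp (primrec_val.comp Primrec.snd Primrec.fst) (Primrec.const 2)).not
        exact h1.forall_lt.comp Primrec.snd (Primrec.fst.comp Primrec.fst)
      · refine Primrec.eq.comp (Primrec.option_isSome.comp (hF.comp ?_
          (Primrec.snd.comp Primrec.fst))) (Primrec.const true)
        exact Primrec.list_map (Primrec.list_range.comp Primrec.snd)
          (primrec_val.comp (Primrec.fst.comp (Primrec.fst.comp Primrec.fst)) Primrec.snd)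
    obtain ⟨G, i, hG, hi⟩ := hgen _ hW
    refine ⟨G, hG, fun n => ?_⟩
    have hpre : ∀ e K, (∀ j < K, val (σ e) j ≠ 2) →
        (List.range K).map (val (σ e)) = Pool.Agent.Helper760.OracleNF.pre g K := by
      intro e K h
      unfold Pool.Agent.Helper760.OracleNF.pre
      refine List.map_congr_left fun j hj => hval e j (h j (List.mem_range.1 hj))
    filter_upwards [(hi n).1] with s hs
    rw [hs]
    constructor
    · intro h
      obtain ⟨K, h1, h2⟩ := (hi n).2 h
      simp only at h1 h2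
      rw [hpre _ K h1] at h2
      obtain ⟨m, hm⟩ := Option.isSome_iff_exists.1 h2
      exact Part.dom_iff_mem.2 ⟨m, (hFf n m).2 ⟨K, hm⟩⟩
    · intro h
      obtain ⟨m, hm⟩ := Part.dom_iff_mem.1 h
      obtain ⟨K, hK⟩ := (hFf n m).1 hm
      obtain ⟨e, he⟩ := Pool.Agent.Helper760.OracleNF.exists_unif K
        (fun j e => val (σ e) j ≠ 2) (fun j k k' hk h => val_ext h (hmono k k' hk))
        (fun j _ => hdec j)
      have he' : ∀ j < K, val (σ (max e (i n))) j ≠ 2 :=
        fun j hj => val_ext (he j hj) (hmono _ _ (le_max_left _ _))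
      refine ⟨σ (max e (i n)), hmono _ _ (le_max_right _ _), K, he', ?_⟩
      rw [hpre _ K he', hK]
      rfl
  · intro hQ
    obtain ⟨q, hq, hqe⟩ := ComputablePred.computable_iff.1 hQ
    have hqe' : ∀ x y : ℕ, q (x, y) = true ↔ (x : ℝ) ≤ y * α := fun x y =>
      (iff_of_eq (congrFun hqe (x, y))).symm
    have hW : REPred (fun z : ℕ × ℕ => (!q (L z.1, D z.1) || q (R z.1, D z.1)) = true) := by
      refine ComputablePred.to_re (ComputablePred.computable_iff.2 ⟨_, ?_, rfl⟩)
      have h1 : Computable (fun z : ℕ × ℕ => q (L z.1, D z.1)) :=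
        hq.comp ((primrec_L.comp Primrec.fst).pair (primrec_D.comp Primrec.fst)).to_comp
      have h2 : Computable (fun z : ℕ × ℕ => q (R z.1, D z.1)) :=
        hq.comp ((primrec_R.comp Primrec.fst).pair (primrec_D.comp Primrec.fst)).to_comp
      exact Primrec.or.to_comp.comp (Primrec.not.to_comp.comp h1) h2
    obtain ⟨G0, i, hG0, hi'⟩ := hgen _ hW
    have hin := (hi' 0).2 (by
      set c := σ (i 0)
      have hc := (hself (i 0)).2.2
      have hD := D_pos c
      by_cases hm : q (L c + R c, 2 * D c) = true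
      · refine ⟨cond3 (2 * L c) (L c + R c) (2 * D c), ?_, ?_⟩
        · unfold Ext
          simp only [L_cond3, R_cond3, D_cond3 _ _ (2 * D c) (by omega)]
          refine ⟨?_, ?_, ?_⟩ <;> nlinarith
        · simp only [L_cond3, R_cond3, D_cond3 _ _ (2 * D c) (by omega), hm, Bool.or_true]
      · refine ⟨cond3 (L c + R c) (2 * R c) (2 * D c), ?_, ?_⟩
        · unfold Ext
          simp only [L_cond3, R_cond3, D_cond3 _ _ (2 * D c) (by omega)]
          refine ⟨?_, ?_, ?_⟩ <;> nlinarith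
        · simp only [L_cond3, R_cond3, D_cond3 _ _ (2 * D c) (by omega)]
          simp [hm])
    set c := σ (i 0 + 1)
    have h1 := hlo (i 0 + 1)
    have h2 := hhi (i 0 + 1)
    have hD := DR_pos c
    unfold lo at h1
    unfold Pool.Agent.H36Z.LowOrd.hi at h2
    rw [div_le_iff₀ hD] at h1
    rw [le_div_iff₀ hD] at h2
    have h3 : q (L c, D c) = true := (hqe' _ _).2 (by linarith)
    simp only [h3, Bool.not_true, Bool.false_or] at hin
    have h4 := (hqe' _ _).1 hin
    have h5 : phi α (mk (R c) 0) = phi α (mk 0 (D c)) := by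
      show ((R c : ℤ) : ℝ) + ((0 : ℤ) : ℝ) * α = ((0 : ℤ) : ℝ) + ((D c : ℤ) : ℝ) * α
      push_cast
      linarith
    have h6 := congrArg c2 (hinj h5)
    have h7 : (0 : ℤ) = D c := h6
    have := D_pos c
    omega

end Pool.Agent.H36Z.LowOrd
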